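import Mathlib
import Pool.Agent.Helper33.TG.Final

/-!
Labels of the vertices and of the faces of a diagram with one negative edge, which increase from
the start of the negative edge to its end, and from its left to its right: the rules for the
edges.
-/

set_option autoImplicit false

namespace Pool.Agent.Helper33.PC

open Pool.Agent.Helper42.Th Pool.Agent.Helper31.T3 Pool.Agent.Helper31.CUT Pool.Agent.Helper33.TG

variable {E : Type} {G : Type*} [Group G] {Γ : CMap E} {L : Lab G Γ} {δ : E}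
  {Ω : Type*} [CompleteLinearOrder Ω] {ρ : G →* (Ω ≃o Ω)} {a b : Ω ≃o Ω} {k : ℕ} {z₀ : Ω}
  [Finite E]

section

variable (S : Sys Γ δ (lx L ρ) (ly L ρ) a b k) (h0 : z₀ < a z₀)

/-- The label of the vertex of a dart: `1` at the start of `δ`, and `a` at its end. -/
noncomputable def V (d : E) : {z // Reg a z₀ z} ≃o {z // Reg a z₀ z} := (hgt S h0 d)⁻¹ * aJ h0

/-- The label of the face of a dart: `1` at `flip δ`, and `b` at `δ`. -/
noncomputable def W (d : E) : {z // Reg a z₀ z} ≃o {z // Reg a z₀ z} := (fac S h0 d)⁻¹ * bJ S h0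

/-- The difference of the labels of the vertices of an edge. -/
noncomputable def dV (d : E) : {z // Reg a z₀ z} ≃o {z // Reg a z₀ z} :=
  (hgt S h0 (Γ.flip d))⁻¹ * hgt S h0 d

/-- The difference of the labels of the faces of an edge. -/
noncomputable def dW (d : E) : {z // Reg a z₀ z} ≃o {z // Reg a z₀ z} :=
  (fac S h0 (Γ.flip d))⁻¹ * fac S h0 d

include S h0

lemma hgt_V (d : E) (t : {z // Reg a z₀ z}) : hgt S h0 d (V S h0 d t) = aJ h0 t := by
  rw [V, RelIso.mul_apply, RelIso.apply_inv_self]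

lemma fac_W (d : E) (t : {z // Reg a z₀ z}) : fac S h0 d (W S h0 d t) = bJ S h0 t := by
  rw [W, RelIso.mul_apply, RelIso.apply_inv_self]

lemma hgt_dV (d : E) (t : {z // Reg a z₀ z}) :
    hgt S h0 (Γ.flip d) (dV S h0 d t) = hgt S h0 d t := by
  rw [dV, RelIso.mul_apply, RelIso.apply_inv_self]

lemma fac_dW (d : E) (t : {z // Reg a z₀ z}) :
    fac S h0 (Γ.flip d) (dW S h0 d t) = fac S h0 d t := by
  rw [dW, RelIso.mul_apply, RelIso.apply_inv_self]

lemma V_flip (d : E) (t : {z // Reg a z₀ z}) : V S h0 (Γ.flip d) t = dV S h0 d (V S h0 d t) := by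
  apply (hgt S h0 (Γ.flip d)).injective
  rw [hgt_V, hgt_dV, hgt_V]

lemma W_flip (d : E) (t : {z // Reg a z₀ z}) : W S h0 (Γ.flip d) t = dW S h0 d (W S h0 d t) := by
  apply (fac S h0 (Γ.flip d)).injective
  rw [fac_W, fac_dW, fac_W]

lemma V_symm (d : E) (t : {z // Reg a z₀ z}) :
    V S h0 (Γ.flip d) ((V S h0 d).symm t) = dV S h0 d t := by
  rw [V_flip, OrderIso.apply_symm_apply]

lemma W_symm (d : E) (t : {z // Reg a z₀ z}) :
    W S h0 (Γ.flip d) ((W S h0 d).symm t) = dW S h0 d t := by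
  rw [W_flip, OrderIso.apply_symm_apply]

lemma V_rot (d : E) : V S h0 (Γ.rot d) = V S h0 d := by
  have h1 : hgt S h0 (Γ.rot d) = hgt S h0 d := by
    apply RelIso.ext
    intro t
    exact (harmJ S h0 t).f_rot d
  rw [V, V, h1]

lemma W_rot (d : E) : W S h0 (Γ.flip (Γ.rot d)) = W S h0 d := by
  have h1 : fac S h0 (Γ.flip (Γ.rot d)) = fac S h0 d := by
    apply RelIso.ext
    intro t
    exact (harmJ S h0 t).g_rot d
  rw [W, W, h1]

lemma V_top (t : {z // Reg a z₀ z}) : V S h0 δ t = t := by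
  apply (hgt S h0 δ).injective
  rw [hgt_V, hgt_top]

lemma V_bot (t : {z // Reg a z₀ z}) : V S h0 (Γ.flip δ) t = aJ h0 t := by
  apply (hgt S h0 (Γ.flip δ)).injective
  rw [hgt_V, hgt_bot]

lemma fac_top (t : {z // Reg a z₀ z}) : fac S h0 δ t = t := by
  apply Subtype.ext
  apply (ly L ρ δ).injective
  rw [fac_eq]

lemma fac_bot (t : {z // Reg a z₀ z}) : fac S h0 (Γ.flip δ) t = bJ S h0 t := by
  apply Subtype.ext
  apply (ly L ρ δ).injective
  rw [fac_eq]
  exact (S.hb t.1).symm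

lemma W_top (t : {z // Reg a z₀ z}) : W S h0 δ t = bJ S h0 t := by
  apply (fac S h0 δ).injective
  rw [fac_W, fac_top]

lemma W_bot (t : {z // Reg a z₀ z}) : W S h0 (Γ.flip δ) t = t := by
  apply (fac S h0 (Γ.flip δ)).injective
  rw [fac_W, fac_bot]

/-- The labels of the vertices are between those of the ends of `δ`. -/
lemma V_ge (d : E) (t : {z // Reg a z₀ z}) : t ≤ V S h0 d t := by
  rw [← (hgt S h0 d).le_iff_le, hgt_V, ← hgt_top S h0 t, hgt_le]
  exact (S.ext (reg_lt h0 t.2).le d).2.1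

lemma V_le (d : E) (t : {z // Reg a z₀ z}) : V S h0 d t ≤ aJ h0 t := by
  rw [← (hgt S h0 d).le_iff_le, hgt_V]
  conv_lhs => rw [← hgt_bot S h0 (aJ h0 t)]
  rw [hgt_le]
  exact (S.ext (reg_lt h0 (aJ h0 t).2).le d).1

/-- The labels of the faces are between those of the sides of `δ`. -/
lemma W_ge (d : E) (t : {z // Reg a z₀ z}) : t ≤ W S h0 d t := by
  rw [← (fac S h0 d).le_iff_le, fac_W]
  exact fac_leJ S h0 d t

lemma W_le (d : E) (t : {z // Reg a z₀ z}) : W S h0 d t ≤ bJ S h0 t := by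
  rw [← (fac S h0 d).le_iff_le, fac_W]
  exact le_facJ S h0 d (bJ S h0 t)

/-- The differences of the labels have the same sign at an edge with a positive slope. -/
lemma pos {d : E} (h1 : d ≠ δ) (h2 : d ≠ Γ.flip δ) {t : {z // Reg a z₀ z}}
    (h : t ≤ dV S h0 d t) : t ≤ dW S h0 d t := by
  have h3 := (harmJ S h0 t).pos d h1 h2 (by
    have h4 := (hgt S h0 (Γ.flip d)).monotone h
    rwa [hgt_dV] at h4)
  rw [← (fac S h0 (Γ.flip d)).le_iff_le, fac_dW]
  exact h3

lemma str {d : E} (h1 : d ≠ δ) (h2 : d ≠ Γ.flip δ) {t : {z // Reg a z₀ z}}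
    (h : dW S h0 d t = t) : dV S h0 d t = t := by
  have h3 := (harmJ S h0 t).str d h1 h2 (by
    have h4 := congrArg (fac S h0 (Γ.flip d)) h
    rw [fac_dW] at h4
    exact h4.symm)
  apply (hgt S h0 (Γ.flip d)).injective
  rw [hgt_dV]
  exact h3.symm

lemma dV_flip (d : E) (t : {z // Reg a z₀ z}) : dV S h0 (Γ.flip d) (dV S h0 d t) = t := by
  apply (hgt S h0 d).injective
  have h1 := hgt_dV S h0 (Γ.flip d) (dV S h0 d t)
  rw [Γ.flip_flip, hgt_dV] at h1
  exact h1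

lemma dW_flip (d : E) (t : {z // Reg a z₀ z}) : dW S h0 (Γ.flip d) (dW S h0 d t) = t := by
  apply (fac S h0 d).injective
  have h1 := fac_dW S h0 (Γ.flip d) (dW S h0 d t)
  rw [Γ.flip_flip, fac_dW] at h1
  exact h1

lemma neg {d : E} (h1 : d ≠ δ) (h2 : d ≠ Γ.flip δ) {t : {z // Reg a z₀ z}}
    (h : dV S h0 d t ≤ t) : dW S h0 d t ≤ t := by
  obtain ⟨h3, h4⟩ := Harm.ne_flip (Γ := Γ) h1 h2
  have h5 := (harmJ S h0 t).pos _ h3 h4 (by
    have h6 := (hgt S h0 (Γ.flip d)).monotone h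
    rw [hgt_dV] at h6
    rw [Γ.flip_flip]
    exact h6)
  rw [Γ.flip_flip] at h5
  rw [← (fac S h0 (Γ.flip d)).le_iff_le, fac_dW]
  exact h5

/-- The signs agree. -/
lemma sign {d : E} (h1 : d ≠ δ) (h2 : d ≠ Γ.flip δ) (t : {z // Reg a z₀ z}) :
    t ≤ dV S h0 d t ↔ t ≤ dW S h0 d t := by
  refine ⟨pos S h0 h1 h2, fun h => ?_⟩
  by_contra h3
  push Not at h3
  have h4 := neg S h0 h1 h2 h3.le
  exact h3.ne (str S h0 h1 h2 (le_antisymm h4 h))

lemma sign_lt {d : E} (h1 : d ≠ δ) (h2 : d ≠ Γ.flip δ) (t : {z // Reg a z₀ z}) :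
    t < dV S h0 d t ↔ t < dW S h0 d t := by
  constructor
  · intro h
    refine lt_of_le_of_ne (pos S h0 h1 h2 h.le) fun h3 => ?_
    exact h.ne (str S h0 h1 h2 h3.symm).symm
  · intro h
    by_contra h3
    push Not at h3
    exact absurd h (not_lt.mpr (neg S h0 h1 h2 h3))

/-- The differences of the labels at an edge with exactly the slope `1`. -/
lemma dV_eq_dW (d : E) (hd : L.M d = L.D d) (t : {z // Reg a z₀ z}) : dV S h0 d t = dW S h0 d t := by
  apply Subtype.ext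
  have h1 : (dV S h0 d t).1 = ρ (L.D d) t.1 := by
    apply (lx L ρ (Γ.flip d)).injective
    rw [← hgt_eq S h0 (Γ.flip d), hgt_dV, hgt_eq]
    change ρ (L.x d) t.1 = ρ (L.x (Γ.flip d)) (ρ (L.D d) t.1)
    rw [← RelIso.mul_apply, ← map_mul, Lab.D, mul_inv_cancel_left]
  have h2 : (dW S h0 d t).1 = ρ (L.M d) t.1 := by
    apply (ly L ρ (Γ.flip d)).injective
    rw [← fac_eq S h0 (Γ.flip d), fac_dW, fac_eq]
    change ρ (L.y d) t.1 = ρ (L.y (Γ.flip d)) (ρ (L.M d) t.1)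
    rw [← RelIso.mul_apply, ← map_mul, Lab.M, mul_inv_cancel_left]
  rw [h1, h2, hd]

/-- The differences of the labels at an edge with a slope of at least `1`. -/
lemma dV_le_dW {d : E} (hd : L.Within d 1) {t : {z // Reg a z₀ z}} (h : t ≤ dV S h0 d t) :
    dV S h0 d t ≤ dW S h0 d t := by
  have h1 := sqJ S h0 (slope_of_within ρ hd) t (dW S h0 d t) (by
    have h4 := (hgt S h0 (Γ.flip d)).monotone h
    rwa [hgt_dV] at h4) (fac_dW S h0 d t).ge
  rw [← (hgt S h0 (Γ.flip d)).le_iff_le, hgt_dV]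
  exact h1

lemma V_same {d e : E} (h : Γ.rot.SameCycle d e) : V S h0 d = V S h0 e :=
  same_eq (fun d => V_rot S h0 d) h.symm

/-- An edge at an end or at a side of `δ` does not fall. -/
lemma rise_top {d : E} (h : Γ.rot.SameCycle δ d) (t : {z // Reg a z₀ z}) : t ≤ dV S h0 d t := by
  obtain ⟨s, rfl⟩ := (V S h0 d).surjective t
  rw [← V_flip, ← V_same S h0 h, V_top]
  exact V_ge S h0 _ s

lemma rise_bot {d : E} (h : Γ.rot.SameCycle (Γ.flip δ) (Γ.flip d)) (t : {z // Reg a z₀ z}) :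
    t ≤ dV S h0 d t := by
  obtain ⟨s, rfl⟩ := (V S h0 d).surjective t
  rw [← V_flip, ← V_same S h0 h, V_bot]
  exact V_le S h0 _ s

lemma rise_left {d : E} (h : W S h0 d = W S h0 (Γ.flip δ)) (h1 : d ≠ δ) (h2 : d ≠ Γ.flip δ)
    (t : {z // Reg a z₀ z}) : t ≤ dV S h0 d t := by
  rw [sign S h0 h1 h2]
  obtain ⟨s, rfl⟩ := (W S h0 d).surjective t
  rw [← W_flip, h, W_bot]
  exact W_ge S h0 _ s

lemma rise_right {d : E} (h : W S h0 (Γ.flip d) = W S h0 δ) (h1 : d ≠ δ) (h2 : d ≠ Γ.flip δ)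
    (t : {z // Reg a z₀ z}) : t ≤ dV S h0 d t := by
  rw [sign S h0 h1 h2]
  obtain ⟨s, rfl⟩ := (W S h0 d).surjective t
  rw [← W_flip, h, W_top]
  exact W_le S h0 _ s

end

end Pool.Agent.Helper33.PC
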